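import Pool.Agent.W78.EG.Defs
import Pool.Agent.W588.EX.DCV

/-!
# Project EG (helper349, port of W588.EX.DCV): deconvolution
-/

set_option autoImplicit false

namespace Pool.Agent.W349.EG

open Finset Filter
open Pool.Agent.W251.EX (Sv Tm)
open Pool.Agent.W78.EG
open Pool.Agent.W588.EX.DCV

variable {f : ℕ} {χ : DirichletCharacter ℂ f}

/-- the mesh sum is small on average -/
theorem avT (h : S_PW χ) {a : ℝ → ℂ} {C : ℝ} (hsv : Sv a C)
    (hyp : ∀ ε : ℝ, 0 < ε → ∀ Q₁ : ℕ,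
      ∃ Q₂ N₀ : ℕ, ∀ N : ℕ, N₀ ≤ N → ∃ Q : ℕ, Q₁ ≤ Q ∧ Q ≤ Q₂ ∧
      ∑ X ∈ Icc 1 N, 1 / (X : ℝ) * ‖∑ p ∈ PQ χ Q, (Real.log p : ℂ) * a ((X : ℝ) / p)‖ ≤
        ε * Q * Real.log N) {m : ℕ} (hm : 1 ≤ m) (hT : Nc (Tm m a) C) {ε κ : ℝ} (hε : 0 < ε)
    (hκ : 0 < κ) : Av (fun x => ‖Tm m a x‖) (2 * ε + 10 * C / m + κ) := by
  have hC := hT.nn
  have hm0 : (0 : ℝ) < m := by exact_mod_cast hm
  obtain ⟨Q₀, hQ₀⟩ := h a C hsv m hm
  obtain ⟨Q₂, N₀, hN₀⟩ := hyp ε hε (max Q₀ 1)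
  choose! x₀ hx₀ using hQ₀
  obtain ⟨y₀, hy₀⟩ := hT.sv κ hκ
  obtain ⟨X₁, hX₁⟩ : ∃ X₁ : ℝ, ∀ Q : ℕ, Q ≤ Q₂ → x₀ Q ≤ X₁ := by
    refine ⟨∑ Q ∈ range (Q₂ + 1), |x₀ Q|, fun Q hQ => ?_⟩
    refine (le_abs_self _).trans ?_
    exact single_le_sum (f := fun Q => |x₀ Q|) (fun _ _ => abs_nonneg _) (mem_range.2 (by omega))
  refine Av.of_large (B := C) (N₀ := N₀) (K := (2 * ε + 10 * C / m) * Real.log (2 * Q₂) +
    10 * C / m + C * ⌈X₁⌉₊ + κ + 2 * C + C * ⌈y₀⌉₊) (by positivity) hC hT.bd fun N hN hNN => ?_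
  have hlogN : 0 ≤ Real.log N := Real.log_nonneg (by exact_mod_cast hN)
  by_cases hQ2 : Q₂ = 0
  · -- impossible
    obtain ⟨Q, hQa, hQb, _⟩ := hN₀ N₀ le_rfl
    have : 1 ≤ Q := (le_max_right _ _).trans hQa
    omega
  have hQ21 : 1 ≤ Q₂ := by omega
  obtain ⟨Q, hQa, hQb, hQc⟩ := hN₀ (Q₂ * (N + 1)) (by nlinarith)
  have hQ1 : 1 ≤ Q := (le_max_right _ _).trans hQa
  have hQ0 : Q₀ ≤ Q := (le_max_left _ _).trans hQa
  have hQpos : (0 : ℝ) < Q := by exact_mod_cast hQ1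
  have h1 := group_ineq (f := fun x => ‖Tm m a x‖) (B := C) (κ := κ) (y₀ := y₀)
    (fun _ => norm_nonneg _) hT.bd hκ.le
    (fun x x' h1 h2 h3 => norm_le_of (hy₀ x x' h1 h2 (by linarith))) Q hQ1 N
  beta_reduce at h1
  have h2 : ∑ X ∈ Icc 1 (Q * (N + 1)), 1 / (X : ℝ) * ‖Tm m a ((X : ℝ) / Q)‖ ≤
      ∑ X ∈ Icc 1 (Q₂ * (N + 1)), 1 / (X : ℝ) * ‖Tm m a ((X : ℝ) / Q)‖ := by
    refine sum_le_sum_of_subset_of_nonneg ?_ fun X _ _ => mul_nonneg (by positivity) (norm_nonneg _)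
    exact Icc_subset_Icc_right (Nat.mul_le_mul_right _ hQb)
  have hpt : ∀ X ∈ Icc 1 (Q₂ * (N + 1)), 1 / (X : ℝ) * ‖Tm m a ((X : ℝ) / Q)‖ ≤
      2 / (Q : ℝ) * (1 / (X : ℝ) * ‖∑ p ∈ PQ χ Q, (Real.log p : ℂ) * a ((X : ℝ) / p)‖) +
        1 / (X : ℝ) * (10 * C / m) + (if (X : ℝ) < X₁ then C else 0) := by
    intro X hX
    obtain ⟨hi, hi0⟩ := inv_bd (mem_Icc.1 hX).1
    have h3 : 0 ≤ 1 / (X : ℝ) * (10 * C / m) := by positivity
    split_ifs with hlt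
    · have h4 := mul_le_mul_of_nonneg_left (hT.bd ((X : ℝ) / Q)) hi0
      have h5 : 1 / (X : ℝ) * C ≤ 1 * C := mul_le_mul_of_nonneg_right hi hC
      have h6 : 0 ≤ 2 / (Q : ℝ) *
        (1 / (X : ℝ) * ‖∑ p ∈ PQ χ Q, (Real.log p : ℂ) * a ((X : ℝ) / p)‖) := by positivity
      linarith
    · rw [add_zero]
      have h4 := hx₀ Q hQ0 X ((hX₁ Q hQb).trans (not_lt.1 hlt))
      have h5 : ‖(Q : ℂ) / 2 * Tm m a ((X : ℝ) / Q)‖ ≤
          ‖∑ p ∈ PQ χ Q, (Real.log p : ℂ) * a ((X : ℝ) / p)‖ + 5 * C / m * Q := norm_le_of h4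
      rw [norm_mul, norm_div, Complex.norm_natCast, Complex.norm_ofNat] at h5
      have h6 : ‖Tm m a ((X : ℝ) / Q)‖ ≤
          2 / (Q : ℝ) * ‖∑ p ∈ PQ χ Q, (Real.log p : ℂ) * a ((X : ℝ) / p)‖ + 10 * C / m := by
        have h7 := mul_le_mul_of_nonneg_left h5 (show 0 ≤ 2 / (Q : ℝ) by positivity)
        have e1 : 2 / (Q : ℝ) * ((Q : ℝ) / 2 * ‖Tm m a ((X : ℝ) / Q)‖) = ‖Tm m a ((X : ℝ) / Q)‖ := by
          field_simp
        have e2 : 2 / (Q : ℝ) * (5 * C / m * Q) = 10 * C / m := by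
          field_simp
          ring
        rw [e1, mul_add, e2] at h7
        exact h7
      have h8 := mul_le_mul_of_nonneg_left h6 hi0
      linarith
  have h3 := sum_le_sum hpt
  rw [sum_add_distrib, sum_add_distrib, ← mul_sum, ← sum_mul] at h3
  have h4 := mul_le_mul_of_nonneg_left hQc (show 0 ≤ 2 / (Q : ℝ) by positivity)
  have e4 : 2 / (Q : ℝ) * (ε * Q * Real.log ((Q₂ * (N + 1) : ℕ) : ℝ)) =
      2 * ε * Real.log ((Q₂ * (N + 1) : ℕ) : ℝ) := by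
    field_simp
  rw [e4] at h4
  have h5 := mul_le_mul_of_nonneg_right (sum_inv_le (Q₂ * (N + 1))) (show 0 ≤ 10 * C / (m : ℝ) by positivity)
  have h6 := count_lt X₁ C hC (Q₂ * (N + 1))
  have h7 := mul_le_mul_of_nonneg_left (log_mul_le hQ21 hN) (show 0 ≤ 2 * ε + 10 * C / m by positivity)
  linarith

theorem dcv {t c : ℤ} (_hF : Fd t c f χ) (h : S_PW χ) : S_DCV χ := by
  intro a C hsv hyp ε hε
  have hNa := Sv_Nc hsv
  have hC := hNa.nn
  -- the choice of `J`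
  obtain ⟨J, hJ1, hJε⟩ : ∃ J : ℕ, 1 ≤ J ∧ (46 + 121 * C) / J ≤ ε / 2 := by
    refine ⟨⌈2 * (46 + 121 * C) / ε⌉₊ + 1, by omega, ?_⟩
    have h1 := Nat.le_ceil (2 * (46 + 121 * C) / ε)
    rw [div_le_iff₀ hε] at h1
    rw [div_le_iff₀ (by positivity)]
    push_cast
    nlinarith
  have hJ0 : (0 : ℝ) < J := by exact_mod_cast hJ1
  obtain ⟨m, hmJ⟩ : ∃ m, m = J ^ 2 := ⟨_, rfl⟩
  have hm1 : 1 ≤ m := hmJ ▸ Nat.one_le_pow _ _ hJ1
  have hm0 : (0 : ℝ) < m := by exact_mod_cast hm1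
  have hmR : (m : ℝ) = (J : ℝ) ^ 2 := by rw [hmJ]; push_cast; ring
  obtain ⟨μ, hμ⟩ : ∃ μ : ℝ, μ = (2 : ℝ) ^ (1 / (m : ℝ)) := ⟨_, rfl⟩
  have hμ1 : 1 ≤ μ := by rw [hμ]; exact Real.one_le_rpow (by norm_num) (by positivity)
  have hμ0 : 0 < μ := by linarith
  have hμm : μ ^ m = 2 := by
    rw [hμ, ← Real.rpow_natCast, ← Real.rpow_mul (by norm_num), one_div_mul_cancel hm0.ne',
      Real.rpow_one]
  obtain ⟨lam, hlam⟩ : ∃ lam : ℝ, lam = μ ^ J := ⟨_, rfl⟩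
  have hlamJ : lam ^ J = 2 := by rw [hlam, ← pow_mul, ← pow_two, ← hmJ, hμm]
  have hlam1 : 1 ≤ lam := hlam ▸ one_le_pow₀ hμ1
  have hJm : J ≤ m := by rw [hmJ]; nlinarith
  have hlam2 : lam ≤ 2 := by
    rw [hlam, ← hμm]; exact pow_le_pow_right₀ hμ1 hJm
  have hlamub : lam - 1 ≤ 1 / J := by
    by_contra hcon
    push Not at hcon
    have h1 : (1 + 1 / (J : ℝ)) ^ J < lam ^ J := pow_lt_pow_left₀ (by linarith) (by positivity) (by omega)
    have h2 := one_add_mul_le_pow (a := 1 / (J : ℝ)) (by have : 0 ≤ 1 / (J : ℝ) := by positivity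
                                                         linarith) J
    rw [hlamJ] at h1
    rw [mul_one_div_cancel hJ0.ne'] at h2
    linarith
  have hlamlb : 1 / (2 * (J : ℝ)) ≤ lam - 1 := by
    have h1 : Real.log lam = Real.log 2 / J := by
      rw [← hlamJ, Real.log_pow]; field_simp
    have h2 := Real.add_one_le_exp (Real.log lam)
    rw [Real.exp_log (by linarith), h1] at h2
    have h3 := Real.log_two_gt_d9
    have h4 : 1 / (2 * (J : ℝ)) ≤ Real.log 2 / J := by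
      rw [div_le_div_iff₀ (by positivity) hJ0]
      nlinarith
    linarith
  have hlampos : 0 < lam - 1 := lt_of_lt_of_le (by positivity) hlamlb
  -- the functions `T` and `U`
  have hTeq : Tm m a = Ms μ m a := by funext x; rw [Tm_eq, hμ]
  have hT : Nc (Tm m a) C := by rw [hTeq]; exact Ms_Nc hμ1 hμm.le hNa
  obtain ⟨κ, hκ⟩ : ∃ κ : ℝ, κ = 1 / (J : ℝ) ^ 2 := ⟨_, rfl⟩
  have hκ0 : 0 < κ := by rw [hκ]; positivity
  have hAT := avT h hsv hyp hm1 hT hκ0 hκ0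
  obtain ⟨τ, hτ⟩ : ∃ τ : ℝ, τ = 2 * κ + 10 * C / m + κ := ⟨_, rfl⟩
  rw [← hτ] at hAT
  have hτ0 : 0 ≤ τ := by rw [hτ]; positivity
  have hU : Nc (Ms μ J a) C := Ms_Nc hμ1 (by rw [← hlam]; exact hlam2) hNa
  rw [hTeq] at hAT hT
  obtain ⟨θ, hθ⟩ : ∃ θ : ℝ, θ = 3 * τ + 2 * κ := ⟨_, rfl⟩
  have hθ0 : 0 ≤ θ := by rw [hθ]; positivity
  have hc1 : 1 ≤ 2 / lam := by rw [le_div_iff₀ (by linarith)]; linarith
  have hc2 : 2 / lam ≤ 2 := by rw [div_le_iff₀ (by linarith)]; linarith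
  have hstep : ∀ η : ℝ, 0 ≤ η → Av (fun x => ‖Ms μ J a x‖) η →
      Av (fun x => ‖Ms μ J a x‖) (η / 2 + θ) := by
    intro η hη hA
    have h1 := (dil2 hU hκ0 hη hA).smul (show (0 : ℝ) ≤ 1 / 2 by norm_num)
    have h2 := (dilc hT (show (1 : ℝ) ≤ 2 by norm_num) le_rfl hκ0 hAT).smul
      (show (0 : ℝ) ≤ 1 / 2 by norm_num)
    have h3 := (dilc hT hc1 hc2 hκ0 hAT).smul (show (0 : ℝ) ≤ lam / 2 by linarith)
    have h4 := (h1.add h2).add h3
    refine (h4.mono_ev (x₀ := 0) (fun x => by positivity) hC hU.bd fun x _ => ?_).weaken ?_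
    · have ht := tele (J := J) hμm a (2 * x)
      rw [← hlam, show 2 * x / 2 = x by ring, show 2 * x / lam = 2 / lam * x by ring] at ht
      have e : Ms μ J a x = (1 / 2 : ℂ) * (Ms μ J a (2 * x) - Ms μ m a (2 * x) +
          (lam : ℂ) * Ms μ m a (2 / lam * x)) := by linear_combination (1 / 2 : ℂ) * ht
      rw [e, norm_mul]
      have e2 : ‖(1 / 2 : ℂ)‖ = 1 / 2 := by norm_num
      rw [e2]
      have h5 : ‖Ms μ J a (2 * x) - Ms μ m a (2 * x) + (lam : ℂ) * Ms μ m a (2 / lam * x)‖ ≤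
          ‖Ms μ J a (2 * x)‖ + ‖Ms μ m a (2 * x)‖ + lam * ‖Ms μ m a (2 / lam * x)‖ := by
        refine (norm_add_le _ _).trans ?_
        rw [norm_mul, Complex.norm_real, Real.norm_of_nonneg (by linarith)]
        exact add_le_add (norm_sub_le _ _) le_rfl
      linarith
    · rw [hθ]
      have : lam / 2 * (2 * τ + κ) ≤ 1 * (2 * τ + κ) :=
        mul_le_mul_of_nonneg_right (by linarith) (by positivity)
      linarith
  have hiter : ∀ k : ℕ, Av (fun x => ‖Ms μ J a x‖) (C / 2 ^ k + 2 * θ) := by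
    intro k
    induction k with
    | zero => exact (Av.of_bd hC hU.bd).weaken (by simp; exact hθ0)
    | succ k ih =>
      refine (hstep _ (by positivity) ih).weaken ?_
      rw [pow_succ]
      apply le_of_eq
      field_simp
      ring
  obtain ⟨k, hk⟩ : ∃ k : ℕ, C / 2 ^ k ≤ κ := by
    have h1 : Tendsto (fun k : ℕ => C * (1 / 2 : ℝ) ^ k) atTop (nhds (C * 0)) :=
      (tendsto_pow_atTop_nhds_zero_of_lt_one (by norm_num) (by norm_num)).const_mul C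
    rw [mul_zero] at h1
    obtain ⟨k, hk⟩ := (h1.eventually (gt_mem_nhds hκ0)).exists
    refine ⟨k, ?_⟩
    rw [one_div, inv_pow, ← div_eq_mul_inv] at hk
    exact hk.le
  have hAU : Av (fun x => ‖Ms μ J a x‖) (2 * θ + κ) := (hiter k).weaken (by linarith)
  -- from `U` to `a`
  obtain ⟨x₀, hx₀⟩ := hsv.reg (lam - 1) hlampos (by linarith)
  have hAa : Av (fun x => ‖a x‖) (1 / (lam - 1) * (2 * θ + κ) + C * (lam - 1)) := by
    refine ((hAU.smul (show 0 ≤ 1 / (lam - 1) by positivity)).add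
      (Av.const (show 0 ≤ C * (lam - 1) by positivity))).mono_ev (x₀ := 2 * |x₀|)
      (fun x => by positivity) hC hNa.bd fun x hx => ?_
    have hx0 : 0 ≤ x := by have := abs_nonneg x₀; linarith
    have h1 : ‖Ms μ J a x - ((lam - 1 : ℝ) : ℂ) * a x‖ ≤ (lam - 1) * (C * (lam - 1)) := by
      have e : ((lam - 1 : ℝ) : ℂ) * a x = ∑ j ∈ range J, ((μ ^ (j + 1) - μ ^ j : ℝ) : ℂ) * a x := by
        rw [← sum_mul, ← Complex.ofReal_sum, sum_w, hlam]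
      rw [e]
      unfold Ms
      rw [← sum_sub_distrib]
      refine (norm_sum_le _ _).trans ?_
      conv_rhs => rw [show lam - 1 = μ ^ J - 1 by rw [hlam], ← sum_w, sum_mul]
      refine sum_le_sum fun j hj => ?_
      rw [← mul_sub, norm_mul, norm_w hμ1]
      have hw0 : 0 ≤ μ ^ (j + 1) - μ ^ j := by
        have := pow_le_pow_right₀ hμ1 (show j ≤ j + 1 by omega)
        linarith
      refine mul_le_mul_of_nonneg_left ?_ hw0
      have hj1 : 1 ≤ μ ^ j := one_le_pow₀ hμ1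
      have hj2 : μ ^ j ≤ lam := by
        rw [hlam]; exact pow_le_pow_right₀ hμ1 (mem_range.1 hj).le
      have hj0 : 0 < μ ^ j := by linarith
      rw [norm_sub_rev]
      have e3 : ∑ j ∈ range J, (μ ^ (j + 1) - μ ^ j) = lam - 1 := by rw [sum_w, hlam]
      rw [e3]
      refine hx₀ _ _ ?_ ?_ ?_
      · rw [le_div_iff₀ hj0]
        have h4 := le_abs_self x₀
        have h5 := abs_nonneg x₀
        nlinarith
      · rw [div_le_iff₀ hj0]
        nlinarith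
      · rw [mul_div_assoc', le_div_iff₀ hj0]
        nlinarith
    have h2 : ‖((lam - 1 : ℝ) : ℂ) * a x‖ ≤ ‖Ms μ J a x‖ + (lam - 1) * (C * (lam - 1)) := norm_le_of h1
    rw [norm_mul, Complex.norm_real, Real.norm_of_nonneg hlampos.le] at h2
    have h3 := mul_le_mul_of_nonneg_left h2 (show 0 ≤ 1 / (lam - 1) by positivity)
    have e1 : 1 / (lam - 1) * ((lam - 1) * ‖a x‖) = ‖a x‖ := by field_simp
    have e2 : 1 / (lam - 1) * ((lam - 1) * (C * (lam - 1))) = C * (lam - 1) := by field_simp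
    rw [e1, mul_add, e2] at h3
    exact h3
  have hfin : Av (fun x => ‖a x‖) (ε / 2) := by
    refine hAa.weaken ?_
    have h1 : 1 / (lam - 1) ≤ 2 * J := by
      rw [div_le_iff₀ hlampos]
      have := mul_le_mul_of_nonneg_left hlamlb (show (0 : ℝ) ≤ 2 * J by positivity)
      rw [mul_one_div_cancel (by positivity)] at this
      exact this
    have h2 : 1 / (lam - 1) * (2 * θ + κ) ≤ 2 * J * (2 * θ + κ) :=
      mul_le_mul_of_nonneg_right h1 (by positivity)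
    have h3 : C * (lam - 1) ≤ C * (1 / J) := mul_le_mul_of_nonneg_left hlamub hC
    have h4 : 2 * J * (2 * θ + κ) + C * (1 / J) = (46 + 121 * C) / J := by
      rw [hθ, hτ, hκ, hmR]
      field_simp
      ring
    linarith
  obtain ⟨K, hK⟩ := hfin
  obtain ⟨N₀, hN₀⟩ : ∃ N₀ : ℕ, ∀ N : ℕ, N₀ ≤ N → K ≤ ε / 2 * Real.log N := by
    have h1 : Tendsto (fun N : ℕ => ε / 2 * Real.log N) atTop atTop :=
      (Real.tendsto_log_atTop.comp tendsto_natCast_atTop_atTop).const_mul_atTop (by positivity)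
    obtain ⟨N₀, hN₀⟩ := (h1.eventually_ge_atTop K).exists_forall_of_atTop
    exact ⟨N₀, hN₀⟩
  refine ⟨max N₀ 1, fun N hN => ?_⟩
  have h1 := hK N ((le_max_right _ _).trans hN)
  have h2 := hN₀ N ((le_max_left _ _).trans hN)
  linarith

end Pool.Agent.W349.EG
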