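import Pool.Agent.W78.EG.Defs

/-!
Project EG (helper349, port of W251.EX.PW): PW, sums over primes and mesh sums.
-/

set_option autoImplicit false

namespace Pool.Agent.W349.EG

open Finset Filter
open Pool.Agent.W251.EX (Sv Tm)
open Pool.Agent.W78.EG

variable {f : ℕ} {χ : DirichletCharacter ℂ f}

lemma T_eq (Q : ℕ) (u : ℝ) (h1 : (Q : ℝ) ≤ u) (h2 : u ≤ 2 * Q) :
    ∑ p ∈ (PQ χ Q).filter (fun p : ℕ => (p : ℝ) ≤ u), Real.log p =
      ∑ m ∈ Ioc Q ⌊u⌋₊, th χ Q m := by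
  have hu : 0 ≤ u := le_trans (Nat.cast_nonneg _) h1
  have e1 : ∀ m ∈ Ioc Q ⌊u⌋₊, th χ Q (m : ℤ) = if m ∈ PQ χ Q then Real.log m else 0 := by
    intro m hm
    have hm0 : 0 < m := lt_of_le_of_lt (Nat.zero_le _) (mem_Ioc.1 hm).1
    unfold th
    by_cases h : m ∈ PQ χ Q
    · rw [if_pos h, if_pos ⟨by exact_mod_cast hm0, by rw [Int.toNat_natCast]; exact h⟩]
      norm_cast
    · rw [if_neg h, if_neg (fun h3 => h (by rw [Int.toNat_natCast] at h3; exact h3.2))]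
  rw [sum_congr rfl e1, ← sum_filter]
  refine sum_congr ?_ fun _ _ => rfl
  ext p
  simp only [mem_filter, mem_Ioc, PQ]
  constructor
  · rintro ⟨⟨⟨h3, h4⟩, h5⟩, h6⟩
    exact ⟨⟨h3, Nat.le_floor h6⟩, ⟨h3, h4⟩, h5⟩
  · rintro ⟨⟨h3, h4⟩, h5, h6⟩
    exact ⟨⟨h5, h6⟩, (Nat.le_floor_iff hu).1 h4⟩

/-- the prime number theorem on `(Q, u]` -/
lemma T_asym (hS : S_SWC χ) (η : ℝ) (hη : 0 < η) : ∃ Q₀ : ℕ, 1 ≤ Q₀ ∧ ∀ Q : ℕ, Q₀ ≤ Q → ∀ u : ℝ,
    (Q : ℝ) ≤ u → u ≤ 2 * Q →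
    |∑ p ∈ (PQ χ Q).filter (fun p : ℕ => (p : ℝ) ≤ u), Real.log p - (u - Q) / 2| ≤ η * Q := by
  obtain ⟨C, Q₁, hC⟩ := hS.2 1
  have hlim : Tendsto (fun N : ℕ => Real.log N) atTop atTop :=
    Real.tendsto_log_atTop.comp tendsto_natCast_atTop_atTop
  obtain ⟨Q₂, hQ₂⟩ := (hlim.eventually_gt_atTop (2 * |C| / η + 1)).exists_forall_of_atTop
  obtain ⟨Q₃, hQ₃⟩ := exists_nat_gt (1 / η)
  refine ⟨max (max Q₁ Q₂) (max Q₃ 1), (le_max_right _ _).trans (le_max_right _ _),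
    fun Q hQ u h1 h2 => ?_⟩
  have q1 : Q₁ ≤ Q := le_trans ((le_max_left _ _).trans (le_max_left _ _)) hQ
  have q2 : Q₂ ≤ Q := le_trans ((le_max_right _ _).trans (le_max_left _ _)) hQ
  have q3 : Q₃ ≤ Q := le_trans ((le_max_left _ _).trans (le_max_right _ _)) hQ
  have hu : 0 ≤ u := le_trans (Nat.cast_nonneg _) h1
  rw [T_eq Q u h1 h2]
  have t1 : Q ≤ ⌊u⌋₊ := Nat.le_floor h1
  have t2 : ⌊u⌋₊ ≤ 2 * Q := by
    have : ((⌊u⌋₊ : ℕ) : ℝ) ≤ ((2 * Q : ℕ) : ℝ) := by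
      push_cast
      exact (Nat.floor_le hu).trans h2
    exact_mod_cast this
  have h3 := hC Q q1 ⌊u⌋₊ t1 t2
  have h4 : |((⌊u⌋₊ : ℝ) - Q) / 2 - (u - Q) / 2| ≤ 1 / 2 := by
    have f1 := Nat.floor_le hu
    have f2 := Nat.lt_floor_add_one u
    rw [abs_le]
    constructor <;> linarith
  have h5 : (1 : ℝ) / 2 ≤ η / 2 * Q := by
    have : 1 / η < Q := lt_of_lt_of_le hQ₃ (by exact_mod_cast q3)
    rw [div_lt_iff₀ hη] at this
    linarith
  have h6 : C * Q / Real.log Q ^ 1 ≤ η / 2 * Q := by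
    have h7 := hQ₂ Q q2
    have hp : 0 ≤ 2 * |C| / η := by positivity
    have hl : 0 < Real.log Q := by linarith
    rw [pow_one, div_le_iff₀ hl]
    have h8 : 2 * |C| / η ≤ Real.log Q := by linarith
    rw [div_le_iff₀ hη] at h8
    have h9 : C ≤ |C| := le_abs_self C
    have hQ0 : (0 : ℝ) ≤ Q := Nat.cast_nonneg _
    nlinarith
  calc |∑ m ∈ Ioc Q ⌊u⌋₊, th χ Q m - (u - Q) / 2|
      = |(∑ m ∈ Ioc Q ⌊u⌋₊, th χ Q m - ((⌊u⌋₊ : ℝ) - Q) / 2) +
          (((⌊u⌋₊ : ℝ) - Q) / 2 - (u - Q) / 2)| := by congr 1; ring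
    _ ≤ C * Q / Real.log Q ^ 1 + 1 / 2 := (abs_add_le _ _).trans (add_le_add h3 h4)
    _ ≤ η * Q := by linarith

theorem pw {t c : ℤ} (_hF : Fd t c f χ) (hS : S_SWC χ) : S_PW χ := by
  intro a C hsv m hm
  have hm0 : (0 : ℝ) < m := by exact_mod_cast hm
  have hm1 : (1 : ℝ) ≤ m := by exact_mod_cast hm
  have hC0 : 0 ≤ C := (norm_nonneg _).trans (hsv.bd 0)
  obtain ⟨Q₀, hQ₀1, hQ₀⟩ := T_asym hS (1 / (2 * (m : ℝ) ^ 2)) (by positivity)
  refine ⟨Q₀, fun Q hQ => ?_⟩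
  have hQ1 : 1 ≤ Q := hQ₀1.trans hQ
  have hQ0 : (0 : ℝ) < Q := by exact_mod_cast hQ1
  obtain ⟨x₁, hx₁⟩ := hsv.reg (1 / m) (by positivity) (by rw [div_le_one hm0]; exact hm1)
  refine ⟨2 * Q * |x₁|, fun x hx => ?_⟩
  have hx0 : 0 ≤ x := le_trans (by positivity) hx
  set u : ℕ → ℝ := fun j => Q * (2 : ℝ) ^ ((j : ℝ) / m) with hu
  set G : ℕ → ℝ := fun j => ∑ p ∈ (PQ χ Q).filter (fun p : ℕ => (p : ℝ) ≤ u j), Real.log p with hG
  have u0 : u 0 = Q := by simp [hu]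
  have um : u m = 2 * Q := by
    simp only [hu]
    rw [div_self hm0.ne', Real.rpow_one]
    ring
  have umono : ∀ i j : ℕ, i ≤ j → u i ≤ u j := by
    intro i j hij
    simp only [hu]
    have : (i : ℝ) / m ≤ (j : ℝ) / m := by
      have : (i : ℝ) ≤ j := by exact_mod_cast hij
      gcongr
    exact mul_le_mul_of_nonneg_left (Real.rpow_le_rpow_of_exponent_le (by norm_num) this) hQ0.le
  have uQ : ∀ j : ℕ, (Q : ℝ) ≤ u j := fun j => by
    rw [← u0]; exact umono 0 j (Nat.zero_le _)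
  have upos : ∀ j : ℕ, 0 < u j := fun j => lt_of_lt_of_le hQ0 (uQ j)
  have u2Q : ∀ j : ℕ, j ≤ m → u j ≤ 2 * Q := fun j hj => by
    rw [← um]; exact umono j m hj
  have hr : (2 : ℝ) ^ ((1 : ℝ) / m) ≤ 1 + 1 / m := by
    have h1 := rpow_one_add_le_one_add_mul_self (s := 1) (by norm_num) (p := 1 / (m : ℝ))
      (by positivity) (by rw [div_le_one hm0]; exact hm1)
    norm_num at h1 ⊢
    linarith
  have usucc : ∀ j : ℕ, u (j + 1) ≤ (1 + 1 / m) * u j := by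
    intro j
    simp only [hu]
    have : (((j + 1 : ℕ) : ℝ)) / m = (j : ℝ) / m + 1 / m := by push_cast; ring
    rw [this, Real.rpow_add (by norm_num)]
    have hp : 0 < (2 : ℝ) ^ ((j : ℝ) / m) := by positivity
    calc (Q : ℝ) * ((2 : ℝ) ^ ((j : ℝ) / m) * (2 : ℝ) ^ ((1 : ℝ) / m))
        ≤ Q * ((2 : ℝ) ^ ((j : ℝ) / m) * (1 + 1 / m)) := by gcongr
      _ = (1 + 1 / m) * (Q * (2 : ℝ) ^ ((j : ℝ) / m)) := by ring
  -- the pieces
  set P : ℕ → Finset ℕ := fun j =>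
    (PQ χ Q).filter (fun p : ℕ => u j < (p : ℝ) ∧ (p : ℝ) ≤ u (j + 1)) with hP
  have split : ∀ (A : Type) [AddCommGroup A] (g : ℕ → A) (n : ℕ),
      ∑ p ∈ (PQ χ Q).filter (fun p : ℕ => (p : ℝ) ≤ u n), g p = ∑ j ∈ range n, ∑ p ∈ P j, g p := by
    intro A _ g n
    induction n with
    | zero =>
      rw [range_zero, sum_empty]
      apply sum_eq_zero
      intro p hp
      exfalso
      rw [mem_filter] at hp
      have h3 := hp.1
      unfold PQ at h3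
      rw [mem_filter, mem_Ioc] at h3
      have h4 : (Q : ℝ) < p := by exact_mod_cast h3.1.1
      rw [u0] at hp
      linarith [hp.2]
    | succ n ih =>
      rw [sum_range_succ, ← ih]
      have h3 : (PQ χ Q).filter (fun p : ℕ => (p : ℝ) ≤ u (n + 1)) =
          (PQ χ Q).filter (fun p : ℕ => (p : ℝ) ≤ u n) ∪ P n := by
        ext p
        simp only [hP, mem_union, mem_filter]
        constructor
        · rintro ⟨h4, h5⟩
          by_cases h6 : (p : ℝ) ≤ u n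
          · exact Or.inl ⟨h4, h6⟩
          · exact Or.inr ⟨h4, not_le.1 h6, h5⟩
        · rintro (⟨h4, h5⟩ | ⟨h4, _, h5⟩)
          · exact ⟨h4, h5.trans (umono n (n + 1) (Nat.le_succ _))⟩
          · exact ⟨h4, h5⟩
      rw [h3, sum_union]
      rw [disjoint_left]
      intro p h4 h5
      simp only [hP, mem_filter] at h4 h5
      linarith [h4.2, h5.2.1]
  have all : ∀ (A : Type) [AddCommGroup A] (g : ℕ → A),
      ∑ p ∈ PQ χ Q, g p = ∑ j ∈ range m, ∑ p ∈ P j, g p := by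
    intro A _ g
    rw [← split A g m]
    refine sum_congr ?_ fun _ _ => rfl
    ext p
    rw [mem_filter]
    constructor
    · intro h3
      refine ⟨h3, ?_⟩
      unfold PQ at h3
      rw [mem_filter, mem_Ioc] at h3
      rw [um]
      exact_mod_cast h3.1.2
    · exact fun h3 => h3.1
  have Gj : ∀ j : ℕ, ∑ p ∈ P j, Real.log p = G (j + 1) - G j := by
    intro j
    simp only [hG]
    rw [split ℝ _ (j + 1), split ℝ _ j, sum_range_succ]
    ring
  have Gbd : ∀ j : ℕ, j < m → |∑ p ∈ P j, Real.log p - (u (j + 1) - u j) / 2| ≤ Q / (m : ℝ) ^ 2 := by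
    intro j hj
    rw [Gj]
    have h3 := hQ₀ Q hQ (u (j + 1)) (uQ _) (u2Q _ hj)
    have h4 := hQ₀ Q hQ (u j) (uQ _) (u2Q _ hj.le)
    have h5 : G (j + 1) - G j - (u (j + 1) - u j) / 2 =
        (G (j + 1) - (u (j + 1) - Q) / 2) - (G j - (u j - Q) / 2) := by ring
    rw [h5]
    refine (abs_sub _ _).trans ?_
    have h6 : (Q : ℝ) / (m : ℝ) ^ 2 = 1 / (2 * (m : ℝ) ^ 2) * Q + 1 / (2 * (m : ℝ) ^ 2) * Q := by
      field_simp
      norm_num
    rw [h6]
    exact add_le_add h3 h4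
  -- the total mass
  have tot : ∑ p ∈ PQ χ Q, Real.log p ≤ Q := by
    have h3 := hQ₀ Q hQ (u m) (uQ _) (u2Q _ le_rfl)
    have h4 : ∑ p ∈ (PQ χ Q).filter (fun p : ℕ => (p : ℝ) ≤ u m), Real.log p =
        ∑ p ∈ PQ χ Q, Real.log p := by
      rw [split ℝ _ m, all ℝ]
    rw [h4, um] at h3
    have h5 := (abs_le.1 h3).2
    have h6 : 1 / (2 * (m : ℝ) ^ 2) * Q ≤ 1 / 2 * Q := by
      gcongr
      nlinarith
    linarith
  -- comparison
  have key : ∑ p ∈ PQ χ Q, (Real.log p : ℂ) * a (x / p) - ((Q : ℂ) / 2) * Tm m a (x / Q) =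
      ∑ j ∈ range m, (∑ p ∈ P j, (Real.log p : ℂ) * (a (x / p) - a (x / u j)) +
        ((∑ p ∈ P j, Real.log p - (u (j + 1) - u j) / 2 : ℝ) : ℂ) * a (x / u j)) := by
    rw [all ℂ, Tm, mul_sum, ← sum_sub_distrib]
    refine sum_congr rfl fun j _ => ?_
    have h3 : x / (Q : ℝ) / (2 : ℝ) ^ ((j : ℝ) / m) = x / u j := by
      simp only [hu]
      rw [div_div]
    rw [h3]
    have h4 : (Q : ℂ) / 2 * ((((2 : ℝ) ^ (((j : ℝ) + 1) / m) - (2 : ℝ) ^ ((j : ℝ) / m) : ℝ) : ℂ) *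
        a (x / u j)) = (((u (j + 1) - u j) / 2 : ℝ) : ℂ) * a (x / u j) := by
      simp only [hu]
      push_cast
      ring
    rw [h4]
    have h5 : ∑ p ∈ P j, (Real.log p : ℂ) * (a (x / p) - a (x / u j)) =
        ∑ p ∈ P j, (Real.log p : ℂ) * a (x / p) -
          ((∑ p ∈ P j, Real.log p : ℝ) : ℂ) * a (x / u j) := by
      rw [Complex.ofReal_sum, sum_mul, ← sum_sub_distrib]
      exact sum_congr rfl fun p _ => by ring
    rw [h5]
    push_cast
    ring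
  rw [key]
  have step : ∀ j ∈ range m, ‖∑ p ∈ P j, (Real.log p : ℂ) * (a (x / p) - a (x / u j)) +
        ((∑ p ∈ P j, Real.log p - (u (j + 1) - u j) / 2 : ℝ) : ℂ) * a (x / u j)‖ ≤
        C * (1 / m) * ∑ p ∈ P j, Real.log p + Q / (m : ℝ) ^ 2 * C := by
    intro j hj
    refine (norm_add_le _ _).trans (add_le_add ?_ ?_)
    · refine (norm_sum_le _ _).trans ?_
      rw [mul_sum]
      refine sum_le_sum fun p hp => ?_
      simp only [hP, mem_filter] at hp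
      have h3 := hp.1
      unfold PQ at h3
      rw [mem_filter, mem_Ioc] at h3
      have hpp : (0 : ℝ) < p := lt_of_lt_of_le (upos j) hp.2.1.le
      have hp2 : (p : ℝ) ≤ 2 * Q := by exact_mod_cast h3.1.2
      have hlog : 0 ≤ Real.log p := Real.log_nonneg (by exact_mod_cast h3.2.1.one_le)
      have h4 : x₁ ≤ x / p := by
        rw [le_div_iff₀ hpp]
        calc x₁ * p ≤ |x₁| * p := by gcongr; exact le_abs_self _
          _ ≤ |x₁| * (2 * Q) := by gcongr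
          _ ≤ x := by linarith
      have h5 : x / p ≤ x / u j := div_le_div_of_nonneg_left hx0 (upos j) hp.2.1.le
      have h6 : x / u j ≤ (1 + 1 / m) * (x / p) := by
        rw [div_le_iff₀ (upos j)]
        have h7 : (p : ℝ) ≤ (1 + 1 / m) * u j := hp.2.2.trans (usucc j)
        calc x = x / p * p := by field_simp
          _ ≤ x / p * ((1 + 1 / m) * u j) := by gcongr
          _ = (1 + 1 / m) * (x / p) * u j := by ring
      have h7 := hx₁ (x / p) (x / u j) h4 h5 h6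
      rw [norm_mul, Complex.norm_real, Real.norm_of_nonneg hlog, norm_sub_rev]
      calc Real.log p * ‖a (x / u j) - a (x / p)‖ ≤ Real.log p * (C * (1 / m)) := by gcongr
        _ = C * (1 / m) * Real.log p := by ring
    · rw [norm_mul, Complex.norm_real]
      exact mul_le_mul (Gbd j (mem_range.1 hj)) (hsv.bd _) (norm_nonneg _) (by positivity)
  refine (norm_sum_le _ _).trans ((sum_le_sum step).trans ?_)
  rw [sum_add_distrib, ← mul_sum, ← all ℝ, sum_const, card_range, nsmul_eq_mul]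
  have h3 : C * (1 / m) * ∑ p ∈ PQ χ Q, Real.log p ≤ C * (1 / m) * Q := by gcongr
  have h4 : (m : ℝ) * (Q / (m : ℝ) ^ 2 * C) = C * (1 / m) * Q := by
    field_simp
  rw [h4]
  have h5 : 0 ≤ C * (1 / m) * Q := by positivity
  have h6 : 5 * C / m * Q = 5 * (C * (1 / m) * Q) := by ring
  rw [h6]
  linarith

end Pool.Agent.W349.EG
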